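import Pool.Agent.Q99.FAL.Stm

/-!
# Fully augmented links: the action of `E` and `F` on the Fourier basis
-/

set_option autoImplicit false

namespace Pool.Agent.Q261.FAL

open Matrix Finset
open scoped Kronecker
open Pool.Agent.H550R3.Jones (WM IsMod IsInt br brf W irr tens)
open Pool.Agent.W715.VC (rt)
open Pool.Agent.Q191.TW (cs cs_add cs_zero cs_ne cs_neg rt_cs)
open Pool.Agent.Q99.FW (TZ)
open Pool.Agent.Q99.FAL

theorem cs_N {N : ℕ} (hN : 0 < N) : cs N N = -1 := by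
  unfold cs
  have h0 : (N : ℝ) ≠ 0 := by exact_mod_cast hN.ne'
  have h1 : Real.pi * (N : ℝ) / N = Real.pi := by field_simp
  rw [h1, Complex.exp_pi_mul_I]

theorem cs_negN {N : ℕ} (hN : 0 < N) : cs N (-(N : ℝ)) = -1 := by
  rw [cs_neg, cs_N hN]
  norm_num

theorem br_cs (N : ℕ) (k : ℤ) : br (rt N) k = cs N k - cs N (-(k : ℝ)) := by
  unfold br
  rw [rt_cs, rt_cs]
  push_cast
  rfl

theorem br_refl {N : ℕ} (hN : 0 < N) (n : ℤ) : br (rt N) ((N : ℤ) - n) = br (rt N) n := by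
  rw [br_cs, br_cs]
  push_cast
  have h1 : cs N ((N : ℝ) - n) = -cs N (-(n : ℝ)) := by
    rw [sub_eq_add_neg, cs_add, cs_N hN]
    ring
  have h2 : cs N (-((N : ℝ) - n)) = -cs N n := by
    have : -((N : ℝ) - n) = -(N : ℝ) + n := by ring
    rw [this, cs_add, cs_negN hN]
    ring
  rw [h1, h2]
  ring

theorem br_zero' (N : ℕ) : br (rt N) 0 = 0 := by
  rw [br_cs]
  simp

theorem br_top {N : ℕ} (hN : 0 < N) : br (rt N) N = 0 := by
  have := br_refl hN 0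
  rw [sub_zero, br_zero'] at this
  exact this

theorem irrE {N : ℕ} (hN : 0 < N) (g : ℤ → ℂ) (x : Fin N) :
    ((irr (rt N) N).E *ᵥ fun y : Fin N => g (y : ℕ)) x =
      br (rt N) (((x : ℕ) : ℤ) + 1) * g (((x : ℕ) : ℤ) + 1) := by
  show ∑ y : Fin N, (if (y : ℕ) = x + 1 then br (rt N) ((N : ℤ) - (y : ℕ)) else 0) * g (y : ℕ) = _
  by_cases hx : (x : ℕ) + 1 < N
  · rw [Finset.sum_eq_single (⟨(x : ℕ) + 1, hx⟩ : Fin N)]
    · rw [if_pos rfl, br_refl hN]
      push_cast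
      rfl
    · intro y _ hy
      rw [if_neg, zero_mul]
      intro h
      exact hy (Fin.ext h)
    · intro h
      exact absurd (Finset.mem_univ _) h
  · have hx' : ((x : ℕ) : ℤ) + 1 = N := by
      have := x.2
      omega
    rw [hx', br_top hN, zero_mul]
    refine Finset.sum_eq_zero fun y _ => ?_
    rw [if_neg, zero_mul]
    have := y.2
    omega

theorem irrF {N : ℕ} (g : ℤ → ℂ) (x : Fin N) :
    ((irr (rt N) N).F *ᵥ fun y : Fin N => g (y : ℕ)) x =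
      br (rt N) ((x : ℕ) : ℤ) * g (((x : ℕ) : ℤ) - 1) := by
  show ∑ y : Fin N, (if (x : ℕ) = y + 1 then br (rt N) ((x : ℕ) : ℤ) else 0) * g (y : ℕ) = _
  by_cases hx : 0 < (x : ℕ)
  · rw [Finset.sum_eq_single (⟨(x : ℕ) - 1, by have := x.2; omega⟩ : Fin N)]
    · rw [if_pos (by simp only; omega)]
      have : (((x : ℕ) - 1 : ℕ) : ℤ) = ((x : ℕ) : ℤ) - 1 := by omega
      simp only [this]
    · intro y _ hy
      rw [if_neg, zero_mul]
      intro h
      apply hy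
      apply Fin.ext
      simp only
      omega
    · intro h
      exact absurd (Finset.mem_univ _) h
  · have hx' : ((x : ℕ) : ℤ) = 0 := by omega
    rw [hx', br_zero', zero_mul]
    refine Finset.sum_eq_zero fun y _ => ?_
    rw [if_neg, zero_mul]
    omega

theorem irrK {N : ℕ} (e : ℤ) (g : ℤ → ℂ) (x : Fin N) :
    ((irr (rt N) N).K (rt N) e *ᵥ fun y : Fin N => g (y : ℕ)) x =
      cs N ((e : ℝ) * ((N : ℝ) - 1 - 2 * ((x : ℕ) : ℝ))) * g (x : ℕ) := by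
  unfold WM.K
  rw [Matrix.mulVec_diagonal]
  congr 1
  show rt N ^ (e * ((N : ℤ) - 1 - 2 * ((x : ℕ) : ℤ))) = _
  rw [rt_cs]
  push_cast
  rfl

theorem kron_mulVec {α β γ δ : Type} [Fintype β] [Fintype δ] (A : Matrix α β ℂ) (B : Matrix γ δ ℂ)
    (f : β → ℂ) (g : δ → ℂ) (p : α × γ) :
    ((A ⊗ₖ B) *ᵥ fun q : β × δ => f q.1 * g q.2) p = (A *ᵥ f) p.1 * (B *ᵥ g) p.2 := by
  unfold Matrix.mulVec dotProduct
  rw [Fintype.sum_prod_type, Finset.sum_mul_sum]
  refine Finset.sum_congr rfl fun i _ => Finset.sum_congr rfl fun j _ => ?_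
  show A p.1 i * B p.2 j * (f i * g j) = A p.1 i * f i * (B p.2 j * g j)
  ring

/-- the Fourier basis with a real parameter -/
noncomputable def phR (N : ℕ) (σ : ℝ) (x : ℤ) : ℂ := cs N (-((x : ℝ) ^ 2 / 2 + 2 * σ * x))

theorem ph_zero (N : ℕ) (i x : ℤ) : ph N 0 i x = phR N i x := by
  unfold ph phR
  congr 1
  push_cast
  ring

theorem ph_one (N : ℕ) (j x : ℤ) : ph N 1 j x = phR N (j + ((N : ℝ) - 1) / 2) x := by
  unfold ph phR
  congr 1
  push_cast
  ring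

theorem phR_E {N : ℕ} (hN : 0 < N) (σ : ℝ) (x : Fin N) :
    ((irr (rt N) N).E *ᵥ fun y : Fin N => phR N σ (y : ℕ)) x =
      cs N (1 / 2 - 2 * σ) * (phR N σ (x : ℕ) - cs N (-2) * phR N (σ + 1) (x : ℕ)) := by
  rw [irrE hN (phR N σ) x, br_cs]
  unfold phR
  rw [sub_mul, mul_sub, ← cs_add, ← cs_add, ← cs_add, ← cs_add, ← cs_add]
  congr 2 <;> (push_cast; ring)

theorem phR_F {N : ℕ} (σ : ℝ) (x : Fin N) :
    ((irr (rt N) N).F *ᵥ fun y : Fin N => phR N σ (y : ℕ)) x =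
      cs N (2 * σ - 1 / 2) * (phR N (σ - 1) (x : ℕ) - phR N σ (x : ℕ)) := by
  rw [irrF (phR N σ) x, br_cs]
  unfold phR
  rw [sub_mul, mul_sub, ← cs_add, ← cs_add, ← cs_add, ← cs_add]
  congr 2 <;> (push_cast; ring)

theorem phR_K {N : ℕ} (σ : ℝ) (x : Fin N) :
    ((irr (rt N) N).K (rt N) 1 *ᵥ fun y : Fin N => phR N σ (y : ℕ)) x =
      cs N ((N : ℝ) - 1) * phR N (σ + 1) (x : ℕ) := by
  rw [irrK 1 (phR N σ) x]
  unfold phR
  rw [← cs_add, ← cs_add]
  congr 1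
  push_cast
  ring

theorem phR_K' {N : ℕ} (σ : ℝ) (x : Fin N) :
    ((irr (rt N) N).K (rt N) (-1) *ᵥ fun y : Fin N => phR N σ (y : ℕ)) x =
      cs N (-((N : ℝ) - 1)) * phR N (σ - 1) (x : ℕ) := by
  rw [irrK (-1) (phR N σ) x]
  unfold phR
  rw [← cs_add, ← cs_add]
  congr 1
  push_cast
  ring

theorem uv_eq (N : ℕ) (i j : ℤ) : uv N i j =
    fun q : Fin N × Fin N => phR N i (q.1 : ℕ) * phR N (j + ((N : ℝ) - 1) / 2) (q.2 : ℕ) := by
  funext q
  unfold uv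
  rw [ph_zero, ph_one]

theorem task_EU : S_EU := by
  intro N hN i j
  have hN1 := cs_N hN
  have hN2 := cs_negN hN
  constructor
  · funext p
    have hE : (W (rt N) N).E = (irr (rt N) N).E ⊗ₖ (irr (rt N) N).K (rt N) 1 +
        (1 : Matrix (Fin N) (Fin N) ℂ) ⊗ₖ (irr (rt N) N).E := rfl
    rw [hE, Matrix.add_mulVec, uv_eq, Pi.add_apply, kron_mulVec _ _ (fun y : Fin N => phR N i (y : ℕ))
      (fun y : Fin N => phR N (j + ((N : ℝ) - 1) / 2) (y : ℕ)), kron_mulVec _ _ (fun y : Fin N => phR N i (y : ℕ))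
      (fun y : Fin N => phR N (j + ((N : ℝ) - 1) / 2) (y : ℕ)), phR_E hN, phR_K, phR_E hN, Matrix.one_mulVec]
    simp only [uv_eq, Pi.smul_apply, Pi.add_apply, Pi.sub_apply, smul_eq_mul]
    have e1 : (((j + 1 : ℤ) : ℝ) + ((N : ℝ) - 1) / 2) = (j : ℝ) + ((N : ℝ) - 1) / 2 + 1 := by
      push_cast; ring
    have e2 : (((i + 1 : ℤ) : ℝ)) = (i : ℝ) + 1 := by push_cast; ring
    rw [e1, e2]
    have c1 : cs N ((N : ℝ) - 1) = -cs N (-1) := by
      rw [sub_eq_add_neg, cs_add, hN1]; ring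
    have c2 : cs N (1 / 2 - 2 * ((j : ℝ) + ((N : ℝ) - 1) / 2)) = -(cs N (-(1 / 2)) * om N (1 - j)) := by
      unfold om
      have : 1 / 2 - 2 * ((j : ℝ) + ((N : ℝ) - 1) / 2) = -(N : ℝ) + (-(1 / 2) + 2 * ((1 - j : ℤ) : ℝ)) := by
        push_cast; ring
      rw [this, cs_add, cs_add, hN2]
      push_cast
      ring
    have c3 : cs N (1 / 2 - 2 * (i : ℝ)) * cs N (-1) = cs N (-(1 / 2)) * om N (-i) := by
      unfold om
      rw [← cs_add, ← cs_add]
      congr 1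
      push_cast
      ring
    have c4 : om N (-1 - i) = om N (-i) * cs N (-2) := by
      unfold om
      rw [← cs_add]
      congr 1
      push_cast
      ring
    have c5 : om N (-j) = om N (1 - j) * cs N (-2) := by
      unfold om
      rw [← cs_add]
      congr 1
      push_cast
      ring
    rw [c1, c2, c4, c5]
    linear_combination (-(phR N i (p.1 : ℕ) - cs N (-2) * phR N ((i : ℝ) + 1) (p.1 : ℕ)) *
      phR N ((j : ℝ) + ((N : ℝ) - 1) / 2 + 1) (p.2 : ℕ)) * c3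
  · funext p
    have hF : (W (rt N) N).F = (irr (rt N) N).F ⊗ₖ (1 : Matrix (Fin N) (Fin N) ℂ) +
        (irr (rt N) N).K (rt N) (-1) ⊗ₖ (irr (rt N) N).F := rfl
    rw [hF, Matrix.add_mulVec, uv_eq, Pi.add_apply, kron_mulVec _ _ (fun y : Fin N => phR N i (y : ℕ))
      (fun y : Fin N => phR N (j + ((N : ℝ) - 1) / 2) (y : ℕ)), kron_mulVec _ _ (fun y : Fin N => phR N i (y : ℕ))
      (fun y : Fin N => phR N (j + ((N : ℝ) - 1) / 2) (y : ℕ)), phR_F, phR_K', phR_F, Matrix.one_mulVec]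
    simp only [uv_eq, Pi.smul_apply, Pi.add_apply, smul_eq_mul]
    have e1 : (((j - 1 : ℤ) : ℝ) + ((N : ℝ) - 1) / 2) = (j : ℝ) + ((N : ℝ) - 1) / 2 - 1 := by
      push_cast; ring
    have e2 : (((i - 1 : ℤ) : ℝ)) = (i : ℝ) - 1 := by push_cast; ring
    rw [e1, e2]
    have c1 : cs N (2 * (i : ℝ) - 1 / 2) = cs N (-(1 / 2)) * om N i := by
      unfold om
      rw [← cs_add]
      congr 1
      push_cast
      ring
    have c2 : cs N (-((N : ℝ) - 1)) * cs N (2 * ((j : ℝ) + ((N : ℝ) - 1) / 2) - 1 / 2) =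
        cs N (-(1 / 2)) * om N j := by
      unfold om
      rw [← cs_add, ← cs_add]
      congr 1
      push_cast
      ring
    rw [c1]
    linear_combination (phR N ((i : ℝ) - 1) (p.1 : ℕ) * (phR N ((j : ℝ) + ((N : ℝ) - 1) / 2 - 1) (p.2 : ℕ) -
      phR N ((j : ℝ) + ((N : ℝ) - 1) / 2) (p.2 : ℕ))) * c2

end Pool.Agent.Q261.FAL
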