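import Pool.Agent.Q261.FAL.EU

/-!
# Fully augmented links: the action of `E` and `F` on the vectors `wv`
-/

set_option autoImplicit false

namespace Pool.Agent.Q261.FAL

open Matrix Finset
open Pool.Agent.H550R3.Jones (WM IsMod IsInt br brf W irr tens)
open Pool.Agent.W715.VC (rt)
open Pool.Agent.Q191.TW (cs cs_add cs_zero cs_ne cs_neg rt_cs)
open Pool.Agent.W719.BS (D D_pos)
open Pool.Agent.Q99.FW (TZ Tri)
open Pool.Agent.Q99.FAL

theorem br_sin (N : ℕ) (k : ℤ) :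
    br (rt N) k = ((2 * Real.sin (Real.pi * k / N) : ℝ) : ℂ) * Complex.I := by
  rw [br_cs]
  unfold cs
  have h1 : ((Real.pi * (-(k : ℝ)) / N : ℝ) : ℂ) * Complex.I =
      -((Real.pi * k / N : ℝ) : ℂ) * Complex.I := by
    push_cast; ring
  rw [h1]
  push_cast
  rw [Complex.sin]
  have h2 := Complex.I_mul_I
  linear_combination (Complex.exp (((Real.pi : ℂ) * k / N) * Complex.I) -
    Complex.exp (-((Real.pi : ℂ) * k / N) * Complex.I)) * h2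

theorem bq_zero (N : ℕ) (n k : ℤ) (h : k < 0 ∨ n < k) : bq N n k = 0 := by
  unfold bq TZ
  rw [if_neg]
  omega

theorem bq_nat (N n j m : ℕ) (hn : n < N) (hj : j + m = n) :
    bq N n j = N / (D N j * D N m * D N (N - 1 - n)) := by
  unfold bq TZ
  rw [if_pos (by omega)]
  unfold Tri
  have h1 : ((n : ℤ) - j).toNat = m := by omega
  have h2 : ((N : ℤ) - 1 - n).toNat = N - 1 - n := by omega
  rw [h1, h2, Int.toNat_natCast]

/-- Pascal -/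
theorem pascal {N : ℕ} (n k : ℤ) (h0 : 0 ≤ n) (h1 : n < N) :
    br (rt N) k * ((bq N n k : ℝ) : ℂ) = br (rt N) (n - k + 1) * ((bq N n (k - 1) : ℝ) : ℂ) := by
  obtain ⟨n, rfl⟩ := Int.eq_ofNat_of_zero_le h0
  have hn : n < N := by exact_mod_cast h1
  rcases lt_or_ge k 1 with hk | hk
  · rw [bq_zero N n (k - 1) (by omega)]
    rcases eq_or_lt_of_le (show k ≤ 0 by omega) with h | h
    · rw [h, br_zero']
      simp
    · rw [bq_zero N n k (by omega)]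
      simp
  · rcases lt_or_ge (n : ℤ) k with hk' | hk'
    · rw [bq_zero N n k (by omega)]
      rcases eq_or_lt_of_le (show (n : ℤ) + 1 ≤ k by omega) with h | h
      · rw [← h]
        have : (n : ℤ) - (n + 1) + 1 = 0 := by ring
        rw [this, br_zero']
        simp
      · rw [bq_zero N n (k - 1) (by omega)]
        simp
    · obtain ⟨j, hj⟩ : ∃ j : ℕ, k = (j : ℤ) + 1 := ⟨(k - 1).toNat, by omega⟩
      obtain ⟨m, hm⟩ : ∃ m : ℕ, n = j + 1 + m := ⟨n - (j + 1), by omega⟩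
      have e1 : k = ((j + 1 : ℕ) : ℤ) := by rw [hj]; push_cast; ring
      have e2 : k - 1 = (j : ℤ) := by rw [hj]; ring
      have e3 : (n : ℤ) - k + 1 = ((m + 1 : ℕ) : ℤ) := by rw [hj, hm]; push_cast; ring
      rw [e2, e3, e1, bq_nat N n (j + 1) m hn (by omega), bq_nat N n j (m + 1) hn (by omega),
        br_sin, br_sin]
      have d1 : D N (j + 1) = D N j * (2 * Real.sin (Real.pi * (j + 1) / N)) :=
        Finset.prod_range_succ _ _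
      have d2 : D N (m + 1) = D N m * (2 * Real.sin (Real.pi * (m + 1) / N)) :=
        Finset.prod_range_succ _ _
      have p1 := D_pos N j (by omega)
      have p2 := D_pos N m (by omega)
      have p3 := D_pos N (N - 1 - n) (by omega)
      have p4 := D_pos N (j + 1) (by omega)
      have p5 := D_pos N (m + 1) (by omega)
      have q1 : 2 * Real.sin (Real.pi * (j + 1) / N) ≠ 0 := by
        intro h
        rw [d1, h, mul_zero] at p4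
        exact lt_irrefl _ p4
      have q2 : 2 * Real.sin (Real.pi * (m + 1) / N) ≠ 0 := by
        intro h
        rw [d2, h, mul_zero] at p5
        exact lt_irrefl _ p5
      have key : 2 * Real.sin (Real.pi * ((j + 1 : ℕ) : ℤ) / N) *
          (N / (D N (j + 1) * D N m * D N (N - 1 - n))) =
          2 * Real.sin (Real.pi * ((m + 1 : ℕ) : ℤ) / N) *
            (N / (D N j * D N (m + 1) * D N (N - 1 - n))) := by
        rw [d1, d2]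
        have c1 : ((((j + 1 : ℕ) : ℤ)) : ℝ) = (j : ℝ) + 1 := by push_cast; ring
        have c2 : ((((m + 1 : ℕ) : ℤ)) : ℝ) = (m : ℝ) + 1 := by push_cast; ring
        rw [c1, c2]
        set x := 2 * Real.sin (Real.pi * (j + 1) / N)
        set y := 2 * Real.sin (Real.pi * (m + 1) / N)
        field_simp
      have key2 := congrArg (fun t : ℝ => (t : ℂ)) key
      simp only [Complex.ofReal_mul (2 * Real.sin (Real.pi * ((j + 1 : ℕ) : ℤ) / N)),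
        Complex.ofReal_mul (2 * Real.sin (Real.pi * ((m + 1 : ℕ) : ℤ) / N))] at key2
      calc _ = ((2 * Real.sin (Real.pi * ((j + 1 : ℕ) : ℤ) / N) : ℝ) : ℂ) *
          ((N / (D N (j + 1) * D N m * D N (N - 1 - n)) : ℝ) : ℂ) * Complex.I := by ring
        _ = _ := by rw [key2]; ring

theorem alg_E (A B Z S V T P1 P2 Q1 Q0 R1 R0 : ℂ) (hA : A ≠ 0) (hB : B ≠ 0) (hZ : Z ≠ 0)
    (hS : S ≠ 0) (hV : V ≠ 0) (h1 : (B - B⁻¹) * Q1 = (Z * B - Z⁻¹ * B⁻¹) * Q0)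
    (h2 : (A * V - A⁻¹ * V⁻¹) * P2 = (Z * A⁻¹ - Z⁻¹ * A) * P1)
    (h3 : (A * B - A⁻¹ * B⁻¹) * R1 = (Z * A * B - Z⁻¹ * A⁻¹ * B⁻¹) * R0) :
    V ^ 2 * S⁻¹ ^ 2 * B⁻¹ ^ 2 * (T * V⁻¹ ^ 2 * (P1 * Q1 * R1)) +
      (S⁻¹ ^ 2 * A⁻¹ ^ 2 * B⁻¹ ^ 2 - V ^ 2 * S⁻¹ ^ 2 * B⁻¹ ^ 2) * (T * (-V⁻¹) * (P2 * Q0 * R1)) -
      S⁻¹ ^ 2 * A⁻¹ ^ 2 * B⁻¹ ^ 2 * (T * (P1 * Q0 * R0)) =
    V ^ 2 * S⁻¹ ^ 2 * (T * V⁻¹ ^ 2 * (P1 * Q1 * R1)) - Z ^ 2 * S⁻¹ ^ 2 * (T * (P1 * Q0 * R0)) := by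
  have e1 : V ^ 2 * S⁻¹ ^ 2 * B⁻¹ ^ 2 * (T * V⁻¹ ^ 2 * (P1 * Q1 * R1)) +
      (S⁻¹ ^ 2 * A⁻¹ ^ 2 * B⁻¹ ^ 2 - V ^ 2 * S⁻¹ ^ 2 * B⁻¹ ^ 2) * (T * (-V⁻¹) * (P2 * Q0 * R1)) -
      S⁻¹ ^ 2 * A⁻¹ ^ 2 * B⁻¹ ^ 2 * (T * (P1 * Q0 * R0)) -
      (V ^ 2 * S⁻¹ ^ 2 * (T * V⁻¹ ^ 2 * (P1 * Q1 * R1)) - Z ^ 2 * S⁻¹ ^ 2 * (T * (P1 * Q0 * R0))) =
      S⁻¹ ^ 2 * T * (-B⁻¹ * P1 * R1 * ((B - B⁻¹) * Q1) +
        A⁻¹ * B⁻¹ ^ 2 * Q0 * R1 * ((A * V - A⁻¹ * V⁻¹) * P2) +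
        Z * A⁻¹ * B⁻¹ * P1 * Q0 * ((Z * A * B - Z⁻¹ * A⁻¹ * B⁻¹) * R0)) := by
    field_simp
    ring
  rw [h1, h2, ← h3] at e1
  rw [← sub_eq_zero, e1]
  field_simp
  ring

theorem alg_F (A B Z S V T P1 P2 Q1 Q2 R1 R2 : ℂ) (hA : A ≠ 0) (hB : B ≠ 0) (hZ : Z ≠ 0)
    (hV : V ≠ 0) (h1 : (B * V - B⁻¹ * V⁻¹) * Q2 = (Z * V * B - Z⁻¹ * V⁻¹ * B⁻¹) * Q1)
    (h2 : (A * V - A⁻¹ * V⁻¹) * P2 = (Z * A⁻¹ - Z⁻¹ * A) * P1)
    (h3 : (A * B * V - A⁻¹ * B⁻¹ * V⁻¹) * R2 = (Z * V * A * B - Z⁻¹ * V⁻¹ * A⁻¹ * B⁻¹) * R1) :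
    -(S ^ 2 * A ^ 2 * B ^ 2) * (T * (P1 * Q1 * R1)) +
      (S ^ 2 * A ^ 2 * B ^ 2 * V ^ 2 - S ^ 2 * B ^ 2) * (T * (-V⁻¹) * (P2 * Q1 * R2)) +
      S ^ 2 * B ^ 2 * V ^ 2 * (T * V⁻¹ ^ 2 * (P1 * Q2 * R2)) =
    -(S ^ 2 * Z⁻¹ ^ 2 * V⁻¹ ^ 2) * (T * (P1 * Q1 * R1)) + S ^ 2 * (T * V⁻¹ ^ 2 * (P1 * Q2 * R2)) := by
  have e1 : -(S ^ 2 * A ^ 2 * B ^ 2) * (T * (P1 * Q1 * R1)) +
      (S ^ 2 * A ^ 2 * B ^ 2 * V ^ 2 - S ^ 2 * B ^ 2) * (T * (-V⁻¹) * (P2 * Q1 * R2)) +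
      S ^ 2 * B ^ 2 * V ^ 2 * (T * V⁻¹ ^ 2 * (P1 * Q2 * R2)) -
      (-(S ^ 2 * Z⁻¹ ^ 2 * V⁻¹ ^ 2) * (T * (P1 * Q1 * R1)) + S ^ 2 * (T * V⁻¹ ^ 2 * (P1 * Q2 * R2))) =
      S ^ 2 * T * (-(Z⁻¹ * V⁻¹ * A * B) * P1 * Q1 * ((Z * V * A * B - Z⁻¹ * V⁻¹ * A⁻¹ * B⁻¹) * R1) -
        A * B ^ 2 * Q1 * R2 * ((A * V - A⁻¹ * V⁻¹) * P2) +
        B * V⁻¹ * P1 * R2 * ((B * V - B⁻¹ * V⁻¹) * Q2)) := by
    field_simp
    ring
  rw [h1, h2, ← h3] at e1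
  rw [← sub_eq_zero, e1]
  field_simp
  ring

/-- the coefficients of `wv` -/
noncomputable def G (N : ℕ) (n1 a b : ℤ) : ℂ :=
  cs N (((N : ℝ) - 1) * (a + 2 * b)) *
    ((bq N n1 a * bq N (N - 1 - n1) b * bq N (N - 1 - n1) (a + b) : ℝ) : ℂ)

theorem G_supp {N : ℕ} {n1 a b : ℤ} (h0 : 0 ≤ n1) (h1 : n1 < N) (h : G N n1 a b ≠ 0) :
    0 ≤ a ∧ a < N ∧ 0 ≤ b ∧ b < N := by
  by_contra hc
  apply h
  unfold G
  by_cases ha : a < 0 ∨ n1 < a
  · rw [bq_zero N n1 a ha]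
    simp
  · rw [bq_zero N (N - 1 - n1) b (by omega)]
    simp

theorem cs_N1 {N : ℕ} (hN : 0 < N) : cs N ((N : ℝ) - 1) = -(cs N 1)⁻¹ := by
  rw [sub_eq_add_neg, cs_add, cs_N hN, cs_neg]
  ring

theorem coef_E {N : ℕ} (hN : 0 < N) (n1 s a b : ℤ) (h0 : 0 ≤ n1) (h1 : n1 < N) :
    om N (1 - s - b) * G N n1 a b +
      (om N (-s - a - b) - om N (1 - s - b)) * G N n1 (a + 1) (b - 1) -
      om N (-s - a - b) * G N n1 a (b - 1) =
    om N (1 - s) * G N n1 a b - om N (n1 - s) * G N n1 a (b - 1) := by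
  have hn2 : (0 : ℤ) ≤ N - 1 - n1 := by omega
  have hn2' : (N : ℤ) - 1 - n1 < N := by omega
  have p1 := pascal (N := N) (N - 1 - n1) b hn2 hn2'
  have p2 := pascal (N := N) n1 (a + 1) h0 h1
  have p3 := pascal (N := N) (N - 1 - n1) (a + b) hn2 hn2'
  rw [show (N : ℤ) - 1 - n1 - b + 1 = N - (n1 + b) by ring, br_refl hN] at p1
  rw [show n1 - (a + 1) + 1 = n1 - a by ring, show a + 1 - 1 = a by ring] at p2
  rw [show (N : ℤ) - 1 - n1 - (a + b) + 1 = N - (n1 + a + b) by ring, br_refl hN] at p3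
  simp only [br_cs] at p1 p2 p3
  push_cast at p1 p2 p3
  have f1 : cs N ((n1 : ℝ) + b) = cs N n1 * cs N b := cs_add _ _ _
  have f2 : cs N (-((n1 : ℝ) + b)) = (cs N n1)⁻¹ * (cs N b)⁻¹ := by
    rw [cs_neg, f1, mul_inv]
  have f3 : cs N ((a : ℝ) + 1) = cs N a * cs N 1 := cs_add _ _ _
  have f4 : cs N (-((a : ℝ) + 1)) = (cs N a)⁻¹ * (cs N 1)⁻¹ := by rw [cs_neg, f3, mul_inv]
  have f5 : cs N ((n1 : ℝ) - a) = cs N n1 * (cs N a)⁻¹ := by
    rw [sub_eq_add_neg, cs_add, cs_neg]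
  have f6 : cs N (-((n1 : ℝ) - a)) = (cs N n1)⁻¹ * cs N a := by
    rw [cs_neg, f5, mul_inv, inv_inv]
  have f7 : cs N ((a : ℝ) + b) = cs N a * cs N b := cs_add _ _ _
  have f8 : cs N (-((a : ℝ) + b)) = (cs N a)⁻¹ * (cs N b)⁻¹ := by rw [cs_neg, f7, mul_inv]
  have f9 : cs N ((n1 : ℝ) + a + b) = cs N n1 * cs N a * cs N b := by rw [cs_add, cs_add]
  have f10 : cs N (-((n1 : ℝ) + a + b)) = (cs N n1)⁻¹ * (cs N a)⁻¹ * (cs N b)⁻¹ := by
    rw [cs_neg, f9, mul_inv, mul_inv]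
  rw [cs_neg N b, f1, f2] at p1
  rw [f3, f4, f5, f6] at p2
  rw [f7, f8, f9, f10] at p3
  set T := cs N (((N : ℝ) - 1) * (a + 2 * b - 2)) with hT
  have hN1 := cs_N1 hN
  have g1 : cs N (((N : ℝ) - 1) * (a + 2 * b)) = T * (cs N 1)⁻¹ ^ 2 := by
    have : ((N : ℝ) - 1) * (a + 2 * b) =
        ((N : ℝ) - 1) * (a + 2 * b - 2) + (((N : ℝ) - 1) + ((N : ℝ) - 1)) := by ring
    rw [this, cs_add, cs_add, hN1]
    ring
  have g2 : cs N (((N : ℝ) - 1) * (((a + 1 : ℤ) : ℝ) + 2 * ((b - 1 : ℤ) : ℝ))) = T * (-(cs N 1)⁻¹) := by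
    have : ((N : ℝ) - 1) * (((a + 1 : ℤ) : ℝ) + 2 * ((b - 1 : ℤ) : ℝ)) =
        ((N : ℝ) - 1) * (a + 2 * b - 2) + ((N : ℝ) - 1) := by push_cast; ring
    rw [this, cs_add, hN1]
  have g3 : cs N (((N : ℝ) - 1) * ((a : ℝ) + 2 * ((b - 1 : ℤ) : ℝ))) = T := by
    rw [hT]
    congr 1
    push_cast
    ring
  have o1 : om N (1 - s - b) = cs N 1 ^ 2 * (cs N s)⁻¹ ^ 2 * (cs N b)⁻¹ ^ 2 := by
    unfold om
    have : (2 * ((1 - s - b : ℤ) : ℝ)) = 1 + 1 + (-(s : ℝ)) + (-(s : ℝ)) + (-(b : ℝ)) + (-(b : ℝ)) := by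
      push_cast; ring
    rw [this]
    simp only [cs_add, cs_neg]
    ring
  have o2 : om N (-s - a - b) = (cs N s)⁻¹ ^ 2 * (cs N a)⁻¹ ^ 2 * (cs N b)⁻¹ ^ 2 := by
    unfold om
    have : (2 * ((-s - a - b : ℤ) : ℝ)) =
        (-(s : ℝ)) + (-(s : ℝ)) + (-(a : ℝ)) + (-(a : ℝ)) + (-(b : ℝ)) + (-(b : ℝ)) := by
      push_cast; ring
    rw [this]
    simp only [cs_add, cs_neg]
    ring
  have o3 : om N (1 - s) = cs N 1 ^ 2 * (cs N s)⁻¹ ^ 2 := by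
    unfold om
    have : (2 * ((1 - s : ℤ) : ℝ)) = 1 + 1 + (-(s : ℝ)) + (-(s : ℝ)) := by
      push_cast; ring
    rw [this]
    simp only [cs_add, cs_neg]
    ring
  have o4 : om N (n1 - s) = cs N n1 ^ 2 * (cs N s)⁻¹ ^ 2 := by
    unfold om
    have : (2 * ((n1 - s : ℤ) : ℝ)) = (n1 : ℝ) + n1 + (-(s : ℝ)) + (-(s : ℝ)) := by
      push_cast; ring
    rw [this]
    simp only [cs_add, cs_neg]
    ring
  unfold G
  rw [g1, g2, g3, o1, o2, o3, o4, show a + 1 + (b - 1) = a + b by ring, show a + (b - 1) = a + b - 1 by ring]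
  push_cast
  exact alg_E (cs N a) (cs N b) (cs N n1) (cs N s) (cs N 1) T _ _ _ _ _ _ (cs_ne _ _) (cs_ne _ _)
    (cs_ne _ _) (cs_ne _ _) (cs_ne _ _) p1 p2 p3

theorem coef_F {N : ℕ} (hN : 0 < N) (n1 s a b : ℤ) (h0 : 0 ≤ n1) (h1 : n1 < N) :
    -om N (s + a + b) * G N n1 a b +
      (om N (s + a + b + 1) - om N (s + b)) * G N n1 (a + 1) b +
      om N (s + b + 1) * G N n1 a (b + 1) =
    -om N (s - n1 - 1) * G N n1 a b + om N s * G N n1 a (b + 1) := by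
  have hn2 : (0 : ℤ) ≤ N - 1 - n1 := by omega
  have hn2' : (N : ℤ) - 1 - n1 < N := by omega
  have p1 := pascal (N := N) (N - 1 - n1) (b + 1) hn2 hn2'
  have p2 := pascal (N := N) n1 (a + 1) h0 h1
  have p3 := pascal (N := N) (N - 1 - n1) (a + b + 1) hn2 hn2'
  rw [show (N : ℤ) - 1 - n1 - (b + 1) + 1 = N - (n1 + 1 + b) by ring, br_refl hN,
    show b + 1 - 1 = b by ring] at p1
  rw [show n1 - (a + 1) + 1 = n1 - a by ring, show a + 1 - 1 = a by ring] at p2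
  rw [show (N : ℤ) - 1 - n1 - (a + b + 1) + 1 = N - (n1 + 1 + a + b) by ring, br_refl hN,
    show a + b + 1 - 1 = a + b by ring] at p3
  simp only [br_cs] at p1 p2 p3
  push_cast at p1 p2 p3
  have f0 : cs N ((b : ℝ) + 1) = cs N b * cs N 1 := cs_add _ _ _
  have f0' : cs N (-((b : ℝ) + 1)) = (cs N b)⁻¹ * (cs N 1)⁻¹ := by rw [cs_neg, f0, mul_inv]
  have f1 : cs N ((n1 : ℝ) + 1 + b) = cs N n1 * cs N 1 * cs N b := by rw [cs_add, cs_add]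
  have f2 : cs N (-((n1 : ℝ) + 1 + b)) = (cs N n1)⁻¹ * (cs N 1)⁻¹ * (cs N b)⁻¹ := by
    rw [cs_neg, f1, mul_inv, mul_inv]
  have f3 : cs N ((a : ℝ) + 1) = cs N a * cs N 1 := cs_add _ _ _
  have f4 : cs N (-((a : ℝ) + 1)) = (cs N a)⁻¹ * (cs N 1)⁻¹ := by rw [cs_neg, f3, mul_inv]
  have f5 : cs N ((n1 : ℝ) - a) = cs N n1 * (cs N a)⁻¹ := by
    rw [sub_eq_add_neg, cs_add, cs_neg]
  have f6 : cs N (-((n1 : ℝ) - a)) = (cs N n1)⁻¹ * cs N a := by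
    rw [cs_neg, f5, mul_inv, inv_inv]
  have f7 : cs N ((a : ℝ) + b + 1) = cs N a * cs N b * cs N 1 := by rw [cs_add, cs_add]
  have f8 : cs N (-((a : ℝ) + b + 1)) = (cs N a)⁻¹ * (cs N b)⁻¹ * (cs N 1)⁻¹ := by
    rw [cs_neg, f7, mul_inv, mul_inv]
  have f9 : cs N ((n1 : ℝ) + 1 + a + b) = cs N n1 * cs N 1 * cs N a * cs N b := by
    rw [cs_add, cs_add, cs_add]
  have f10 : cs N (-((n1 : ℝ) + 1 + a + b)) =
      (cs N n1)⁻¹ * (cs N 1)⁻¹ * (cs N a)⁻¹ * (cs N b)⁻¹ := by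
    rw [cs_neg, f9, mul_inv, mul_inv, mul_inv]
  rw [f0, f0', f1, f2] at p1
  rw [f3, f4, f5, f6] at p2
  rw [f7, f8, f9, f10] at p3
  set T := cs N (((N : ℝ) - 1) * (a + 2 * b)) with hT
  have hN1 := cs_N1 hN
  have g1 : cs N (((N : ℝ) - 1) * ((a : ℝ) + 2 * ((b + 1 : ℤ) : ℝ))) = T * (cs N 1)⁻¹ ^ 2 := by
    have : ((N : ℝ) - 1) * ((a : ℝ) + 2 * ((b + 1 : ℤ) : ℝ)) =
        ((N : ℝ) - 1) * (a + 2 * b) + (((N : ℝ) - 1) + ((N : ℝ) - 1)) := by push_cast; ring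
    rw [this, cs_add, cs_add, hN1]
    ring
  have g2 : cs N (((N : ℝ) - 1) * (((a + 1 : ℤ) : ℝ) + 2 * (b : ℝ))) = T * (-(cs N 1)⁻¹) := by
    have : ((N : ℝ) - 1) * (((a + 1 : ℤ) : ℝ) + 2 * (b : ℝ)) =
        ((N : ℝ) - 1) * (a + 2 * b) + ((N : ℝ) - 1) := by push_cast; ring
    rw [this, cs_add, hN1]
  have o1 : om N (s + a + b) = cs N s ^ 2 * cs N a ^ 2 * cs N b ^ 2 := by
    unfold om
    have : (2 * ((s + a + b : ℤ) : ℝ)) = (s : ℝ) + s + a + a + b + b := by push_cast; ring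
    rw [this]
    simp only [cs_add]
    ring
  have o2 : om N (s + a + b + 1) = cs N s ^ 2 * cs N a ^ 2 * cs N b ^ 2 * cs N 1 ^ 2 := by
    unfold om
    have : (2 * ((s + a + b + 1 : ℤ) : ℝ)) = (s : ℝ) + s + a + a + b + b + 1 + 1 := by push_cast; ring
    rw [this]
    simp only [cs_add]
    ring
  have o3 : om N (s + b) = cs N s ^ 2 * cs N b ^ 2 := by
    unfold om
    have : (2 * ((s + b : ℤ) : ℝ)) = (s : ℝ) + s + b + b := by push_cast; ring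
    rw [this]
    simp only [cs_add]
    ring
  have o4 : om N (s + b + 1) = cs N s ^ 2 * cs N b ^ 2 * cs N 1 ^ 2 := by
    unfold om
    have : (2 * ((s + b + 1 : ℤ) : ℝ)) = (s : ℝ) + s + b + b + 1 + 1 := by push_cast; ring
    rw [this]
    simp only [cs_add]
    ring
  have o5 : om N (s - n1 - 1) = cs N s ^ 2 * (cs N n1)⁻¹ ^ 2 * (cs N 1)⁻¹ ^ 2 := by
    unfold om
    have : (2 * ((s - n1 - 1 : ℤ) : ℝ)) =
        (s : ℝ) + s + (-(n1 : ℝ)) + (-(n1 : ℝ)) + (-(1 : ℝ)) + (-(1 : ℝ)) := by push_cast; ring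
    rw [this]
    simp only [cs_add, cs_neg]
    ring
  have o6 : om N s = cs N s ^ 2 := by
    unfold om
    have : (2 * (s : ℝ)) = (s : ℝ) + s := by ring
    rw [this, cs_add]
    ring
  unfold G
  rw [g1, g2, ← hT, o1, o2, o3, o4, o5, o6, show a + 1 + b = a + b + 1 by ring,
    show a + (b + 1) = a + b + 1 by ring]
  push_cast
  exact alg_F (cs N a) (cs N b) (cs N n1) (cs N s) (cs N 1) T _ _ _ _ _ _ (cs_ne _ _) (cs_ne _ _)
    (cs_ne _ _) (cs_ne _ _) p1 p2 p3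

/-- the index box -/
noncomputable def box (N : ℕ) : Finset (ℤ × ℤ) := Finset.Icc (-2 : ℤ) (N + 2) ×ˢ Finset.Icc (-2 : ℤ) (N + 2)

/-- sums over the naturals as sums over the box, shifted -/
theorem shift_sum {V : Type} [AddCommGroup V] [Module ℂ V] (N : ℕ) (f : ℤ → ℤ → ℂ)
    (U : ℤ → ℤ → V) (hf : ∀ a b, f a b ≠ 0 → 0 ≤ a ∧ a < N ∧ 0 ≤ b ∧ b < N) (δ ε : ℤ)
    (hδ : |δ| ≤ 1) (hε : |ε| ≤ 1) :
    ∑ a ∈ range N, ∑ b ∈ range N, f a b • U (a + δ) (b + ε) =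
      ∑ p ∈ box N, f (p.1 - δ) (p.2 - ε) • U p.1 p.2 := by
  rw [abs_le] at hδ hε
  rw [← Finset.sum_product']
  refine Finset.sum_of_injOn (fun q : ℕ × ℕ => ((q.1 : ℤ) + δ, (q.2 : ℤ) + ε)) ?_ ?_ ?_ ?_
  · intro q _ q' _ h
    simp only [Prod.mk.injEq] at h
    exact Prod.ext (by omega) (by omega)
  · intro q hq
    have hq' := Finset.mem_coe.1 hq
    rw [Finset.mem_product, Finset.mem_range, Finset.mem_range] at hq'
    show ((q.1 : ℤ) + δ, (q.2 : ℤ) + ε) ∈ ((box N : Finset (ℤ × ℤ)) : Set (ℤ × ℤ))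
    rw [Finset.mem_coe]
    unfold box
    rw [Finset.mem_product, Finset.mem_Icc, Finset.mem_Icc]
    simp only
    omega
  · intro p _ hp
    by_contra hc
    have h1 : f (p.1 - δ) (p.2 - ε) ≠ 0 := fun h => hc (by rw [h, zero_smul])
    obtain ⟨h2, h3, h4, h5⟩ := hf _ _ h1
    apply hp
    refine ⟨((p.1 - δ).toNat, (p.2 - ε).toNat), ?_, ?_⟩
    · rw [Finset.mem_coe, Finset.mem_product, Finset.mem_range, Finset.mem_range]
      simp only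
      omega
    · refine Prod.ext ?_ ?_
      · simp only
        omega
      · simp only
        omega
  · intro q _
    simp only [add_sub_cancel_right]

theorem wv_eq (N : ℕ) (n1 s : ℤ) :
    wv N n1 s = ∑ a ∈ range N, ∑ b ∈ range N, G N n1 a b • uv N (s + a + b) (s + b) := by
  unfold wv G
  refine Finset.sum_congr rfl fun a _ => Finset.sum_congr rfl fun b _ => ?_
  simp only [Int.cast_natCast]

theorem wv_shift {N : ℕ} {n1 : ℤ} (h0 : 0 ≤ n1) (h1 : n1 < N) (s ε : ℤ) (hε : |ε| ≤ 1) :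
    wv N n1 (s + ε) = ∑ p ∈ box N, G N n1 p.1 (p.2 - ε) • uv N (s + p.1 + p.2) (s + p.2) := by
  have h := shift_sum N (G N n1) (fun a b => uv N (s + a + b) (s + b))
    (fun a b h => G_supp h0 h1 h) 0 ε (by simp) hε
  simp only [sub_zero, add_zero] at h
  rw [← h, wv_eq]
  refine Finset.sum_congr rfl fun a _ => Finset.sum_congr rfl fun b _ => ?_
  rw [show s + ε + (a : ℤ) + b = s + a + (b + ε) by ring, show s + ε + (b : ℤ) = s + (b + ε) by ring]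

theorem mulVec_sum2 (N : ℕ) (M : Matrix (Fin N × Fin N) (Fin N × Fin N) ℂ) (f : ℤ → ℤ → ℂ)
    (U : ℤ → ℤ → Fin N × Fin N → ℂ) :
    M *ᵥ (∑ a ∈ range N, ∑ b ∈ range N, f a b • U a b) =
      ∑ a ∈ range N, ∑ b ∈ range N, f a b • (M *ᵥ U a b) := by
  have h : ∀ w, M *ᵥ w = Matrix.mulVecLin M w := fun _ => rfl
  simp only [h, map_sum, map_smul]

theorem ew_E {N : ℕ} (hN : 0 < N) (n1 s : ℤ) (h0 : 0 ≤ n1) (h1 : n1 < N) :
    (W (rt N) N).E *ᵥ wv N n1 s = -cs N (-(1 / 2)) • (om N (1 - s) • wv N n1 s -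
      om N (n1 - s) • wv N n1 (s + 1)) := by
  have hG : ∀ (c : ℤ → ℤ → ℂ) (a b : ℤ), G N n1 a b * c a b ≠ 0 → 0 ≤ a ∧ a < N ∧ 0 ≤ b ∧ b < N :=
    fun c a b h => G_supp h0 h1 (left_ne_zero_of_mul h)
  set U : ℤ → ℤ → Fin N × Fin N → ℂ := fun a b => uv N (s + a + b) (s + b) with hU
  have e1 := shift_sum N (fun a b => G N n1 a b * om N (1 - s - b)) U
    (hG fun _ b => om N (1 - s - b)) 0 0 (by simp) (by simp)
  have e2 := shift_sum N (fun a b => G N n1 a b * (om N (-s - a - b) - om N (-s - b))) U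
    (hG fun a b => om N (-s - a - b) - om N (-s - b)) (-1) 1 (by simp) (by simp)
  have e3 := shift_sum N (fun a b => G N n1 a b * om N (-1 - s - a - b)) U
    (hG fun a b => om N (-1 - s - a - b)) 0 1 (by simp) (by simp)
  have hE : (W (rt N) N).E *ᵥ wv N n1 s = -cs N (-(1 / 2)) • (
      (∑ a ∈ range N, ∑ b ∈ range N, (G N n1 a b * om N (1 - s - b)) • U (a + 0) (b + 0)) +
      (∑ a ∈ range N, ∑ b ∈ range N, (G N n1 a b * (om N (-s - a - b) - om N (-s - b))) •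
        U (a + -1) (b + 1)) -
      ∑ a ∈ range N, ∑ b ∈ range N, (G N n1 a b * om N (-1 - s - a - b)) • U (a + 0) (b + 1)) := by
    rw [wv_eq, mulVec_sum2 N _ (G N n1) U, ← Finset.sum_add_distrib, ← Finset.sum_sub_distrib,
      Finset.smul_sum]
    refine Finset.sum_congr rfl fun a _ => ?_
    rw [← Finset.sum_add_distrib, ← Finset.sum_sub_distrib, Finset.smul_sum]
    refine Finset.sum_congr rfl fun b _ => ?_
    simp only [hU]
    rw [(task_EU N hN (s + a + b) (s + b)).1]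
    rw [show 1 - (s + (b : ℤ)) = 1 - s - b by ring, show -(s + (a : ℤ) + b) = -s - a - b by ring,
      show -(s + (b : ℤ)) = -s - b by ring, show -1 - (s + (a : ℤ) + b) = -1 - s - a - b by ring,
      show s + ((a : ℤ) + 0) + (b + 0) = s + a + b by ring, show s + ((b : ℤ) + 0) = s + b by ring,
      show s + ((a : ℤ) + -1) + (b + 1) = s + a + b by ring, show s + ((b : ℤ) + 1) = s + b + 1 by ring,
      show s + ((a : ℤ) + 0) + (b + 1) = s + a + b + 1 by ring]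
    simp only [smul_add, smul_sub, smul_smul]
    have c1 : ∀ x y z : ℂ, x * (y * z) = y * (x * z) := fun x y z => by ring
    rw [c1 (G N n1 a b), c1 (G N n1 a b), c1 (G N n1 a b)]
  rw [hE, e1, e2, e3]
  congr 1
  have w0 := wv_shift h0 h1 s 0 (by simp)
  have w1 := wv_shift h0 h1 s 1 (by simp)
  rw [add_zero] at w0
  rw [w0, w1, Finset.smul_sum, Finset.smul_sum, ← Finset.sum_add_distrib, ← Finset.sum_sub_distrib,
    ← Finset.sum_sub_distrib]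
  refine Finset.sum_congr rfl fun p _ => ?_
  simp only [hU, smul_smul, ← add_smul, ← sub_smul]
  congr 1
  have hc := coef_E hN n1 s p.1 p.2 h0 h1
  rw [sub_zero, sub_zero, show p.1 - -1 = p.1 + 1 by ring,
    show -s - (p.1 + 1) - (p.2 - 1) = -s - p.1 - p.2 by ring, show -s - (p.2 - 1) = 1 - s - p.2 by ring,
    show -1 - s - p.1 - (p.2 - 1) = -s - p.1 - p.2 by ring]
  linear_combination hc

theorem ew_F {N : ℕ} (hN : 0 < N) (n1 s : ℤ) (h0 : 0 ≤ n1) (h1 : n1 < N) :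
    (W (rt N) N).F *ᵥ wv N n1 s = cs N (-(1 / 2)) • (-om N (s - n1 - 1) • wv N n1 s +
      om N s • wv N n1 (s - 1)) := by
  have hG : ∀ (c : ℤ → ℤ → ℂ) (a b : ℤ), G N n1 a b * c a b ≠ 0 → 0 ≤ a ∧ a < N ∧ 0 ≤ b ∧ b < N :=
    fun c a b h => G_supp h0 h1 (left_ne_zero_of_mul h)
  set U : ℤ → ℤ → Fin N × Fin N → ℂ := fun a b => uv N (s + a + b) (s + b) with hU
  have e1 := shift_sum N (fun a b => G N n1 a b * -om N (s + a + b)) U
    (hG fun a b => -om N (s + a + b)) 0 0 (by simp) (by simp)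
  have e2 := shift_sum N (fun a b => G N n1 a b * (om N (s + a + b) - om N (s + b))) U
    (hG fun a b => om N (s + a + b) - om N (s + b)) (-1) 0 (by simp) (by simp)
  have e3 := shift_sum N (fun a b => G N n1 a b * om N (s + b)) U
    (hG fun a b => om N (s + b)) 0 (-1) (by simp) (by simp)
  have hF : (W (rt N) N).F *ᵥ wv N n1 s = cs N (-(1 / 2)) • (
      (∑ a ∈ range N, ∑ b ∈ range N, (G N n1 a b * -om N (s + a + b)) • U (a + 0) (b + 0)) +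
      (∑ a ∈ range N, ∑ b ∈ range N, (G N n1 a b * (om N (s + a + b) - om N (s + b))) •
        U (a + -1) (b + 0)) +
      ∑ a ∈ range N, ∑ b ∈ range N, (G N n1 a b * om N (s + b)) • U (a + 0) (b + -1)) := by
    rw [wv_eq, mulVec_sum2 N _ (G N n1) U, ← Finset.sum_add_distrib, ← Finset.sum_add_distrib,
      Finset.smul_sum]
    refine Finset.sum_congr rfl fun a _ => ?_
    rw [← Finset.sum_add_distrib, ← Finset.sum_add_distrib, Finset.smul_sum]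
    refine Finset.sum_congr rfl fun b _ => ?_
    simp only [hU]
    rw [(task_EU N hN (s + a + b) (s + b)).2]
    rw [show s + ((a : ℤ) + 0) + (b + 0) = s + a + b by ring, show s + ((b : ℤ) + 0) = s + b by ring,
      show s + ((a : ℤ) + -1) + (b + 0) = s + a + b - 1 by ring,
      show s + ((a : ℤ) + 0) + (b + -1) = s + a + b - 1 by ring, show s + ((b : ℤ) + -1) = s + b - 1 by ring]
    simp only [smul_add, smul_smul]
    have c1 : ∀ x y z : ℂ, x * (y * z) = y * (x * z) := fun x y z => by ring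
    rw [c1 (G N n1 a b), c1 (G N n1 a b), c1 (G N n1 a b)]
  rw [hF, e1, e2, e3]
  congr 1
  have w0 := wv_shift h0 h1 s 0 (by simp)
  have w1 := wv_shift h0 h1 s (-1) (by simp)
  rw [add_zero] at w0
  rw [← sub_eq_add_neg] at w1
  rw [w0, w1, Finset.smul_sum, Finset.smul_sum, ← Finset.sum_add_distrib, ← Finset.sum_add_distrib,
    ← Finset.sum_add_distrib]
  refine Finset.sum_congr rfl fun p _ => ?_
  simp only [hU, smul_smul, ← add_smul]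
  congr 1
  have hc := coef_F hN n1 s p.1 p.2 h0 h1
  rw [sub_zero, sub_zero, show p.1 - -1 = p.1 + 1 by ring, show p.2 - -1 = p.2 + 1 by ring,
    show s + (p.1 + 1) + p.2 = s + p.1 + p.2 + 1 by ring, show s + (p.2 + 1) = s + p.2 + 1 by ring]
  linear_combination hc

end Pool.Agent.Q261.FAL
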